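import Pool.Agent.N179.SD.Fin

/-!
# Systems of classes and potentially invariant classes on products
-/

set_option autoImplicit false
set_option linter.unusedSectionVars false

open CategoryTheory AlgebraicGeometry

universe u

namespace Pool.Agent.N179.PC

open Module Pool.Agent.H914 Pool.Agent.H914.VarClass Pool.Agent.H914.VarClass.Obj
  Pool.Agent.H914.WeilCohomology Pool.Agent.H281R3.HT Pool.Agent.W552 Pool.Agent.TH125.Gal
  Pool.Agent.N179.GR Pool.Agent.N179.GR.S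

noncomputable section

variable {k : Type u} [Field k] {𝒱 : VarClass k} {ops : CycleOps 𝒱}
  {W : WeilCohomology.{u, 0} ops} {Γ : Type} [Group Γ]

/-- The system of subspaces is stable under pull-backs, products, and push-forwards along
projections. -/
structure IsSys (C : ∀ X : 𝒱.Obj, ℕ → Submodule W.K (W.H X)) : Prop where
  map : ∀ {X Y : 𝒱.Obj} (f : X ⟶ Y) (j : ℕ) (c : W.H Y), c ∈ C Y j → W.map f c ∈ C X j
  mul : ∀ {X : 𝒱.Obj} (i j : ℕ) (a b : W.H X), a ∈ C X i → b ∈ C X j → a * b ∈ C X (i + j)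
  push : ∀ {X Y : 𝒱.Obj} (j : ℕ) (c : W.H (X.prod Y)), c ∈ C (X.prod Y) (X.dim + j) →
    W.push (snd X Y) c ∈ C Y j

/-- all potentially invariant classes are in the system -/
def TC (C : ∀ X : 𝒱.Obj, ℕ → Submodule W.K (W.H X)) (χ : Γ →* W.Kˣ) (X : 𝒱.Obj)
    (ρ : Γ →* (W.H X ≃ₐ[W.K] W.H X)) : Prop :=
  ∀ j, ∀ c ∈ W.gr X (2 * j), (∃ Δ : Subgroup Γ, Δ.FiniteIndex ∧
    ∀ g ∈ Δ, ρ g c = (χ g : W.K) ^ j • c) → c ∈ C X j

variable {P Y : 𝒱.Obj} {ρ : Γ →* (W.H P ≃ₐ[W.K] W.H P)} {τ : Γ →* (W.H Y ≃ₐ[W.K] W.H Y)}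
  {υ : Γ →* (W.H (P.prod Y) ≃ₐ[W.K] W.H (P.prod Y))}
  {C : ∀ X : 𝒱.Obj, ℕ → Submodule W.K (W.H X)}

/-- **Products.** -/
theorem tc_step {χ : Γ →* W.Kˣ} (hC : IsSys C) (h1 : Intertwines (W.map (fst P Y)) ρ υ)
    (h2 : Intertwines (W.map (snd P Y)) τ υ) (hTP : TC C χ P ρ) (hTY : TC C χ Y τ) {j : ℕ}
    {z : W.H (P.prod Y)} (hzj : z ∈ W.gr (P.prod Y) (2 * j)) {Δ : Subgroup Γ}
    (hΔ : Δ.FiniteIndex) (hz : ∀ g ∈ Δ, υ g z = (χ g : W.K) ^ j • z)
    (hs : ∀ ψ, ctr2 ψ z ∈ Submodule.span W.K (TwSet χ P ρ)) :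
    z ∈ C (P.prod Y) j := by
  classical
  obtain ⟨N, m, φ, hm, hφ, hexp⟩ := exists_exp Y (TwSet χ P ρ)
  have h3 := hexp z hs
  choose i hmi Δ' hΔ' hc' using fun l => hm l
  have hfin : (⨅ l, Δ' l).FiniteIndex := Subgroup.finiteIndex_iInf fun l => hΔ' l
  set x : Fin N → W.H Y := fun l => ctr (φ l) z with hx
  -- degrees
  have hdeg : ∀ l, x l = if 2 * i l ≤ 2 * j then
      proj (W.isInternal Y) (2 * j - 2 * i l) (x l) else 0 := by
    intro l
    have h4 : z = ∑ l', W.map (fst _ Y) (m l') * W.map (snd _ Y)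
        (if 2 * i l' ≤ 2 * j then proj (W.isInternal Y) (2 * j - 2 * i l') (x l') else 0) := by
      conv_lhs => rw [← proj_same (W.isInternal _) hzj, h3]
      rw [map_sum]
      refine Finset.sum_congr rfl fun l' _ => ?_
      rw [proj_ext (hmi l')]
      by_cases h : 2 * i l' ≤ 2 * j
      · rw [if_pos h, if_pos h]
      · rw [if_neg h, if_neg h, map_zero, mul_zero]
    conv_lhs => rw [hx]
    beta_reduce
    rw [h4]
    exact ctr_sum hφ _ l
  -- semi-invariance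
  have hact : ∀ g ∈ Δ ⊓ ⨅ l, Δ' l, ∀ l,
      (χ g : W.K) ^ i l • τ g (x l) = (χ g : W.K) ^ j • x l := by
    intro g hg l
    have h4 : υ g z = ∑ l', W.map (fst _ Y) (m l') * W.map (snd _ Y)
        ((χ g : W.K) ^ i l' • τ g (x l')) := by
      conv_lhs => rw [h3]
      rw [map_sum]
      refine Finset.sum_congr rfl fun l' _ => ?_
      rw [map_mul, h1, h2, hc' l' g (Subgroup.mem_iInf.1 hg.2 l'), map_smul, map_smul,
        smul_mul_assoc, mul_smul_comm]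
    have h5 := ctr_sum hφ (fun l' => (χ g : W.K) ^ i l' • τ g (x l')) l
    rw [← h4, hz g hg.1, map_smul] at h5
    exact h5.symm
  rw [h3]
  refine Submodule.sum_mem _ fun l _ => ?_
  by_cases h : 2 * i l ≤ 2 * j
  · have h4 := hdeg l
    rw [if_pos h] at h4
    have h5 : x l ∈ W.gr Y (2 * (j - i l)) := by
      rw [h4, show 2 * (j - i l) = 2 * j - 2 * i l by omega]
      exact proj_mem _ _ _
    have h6 := hTY (j - i l) (x l) h5 ⟨Δ ⊓ ⨅ l, Δ' l, inferInstance, fun g hg => by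
      have h7 := hact g hg l
      have h8 : (χ g : W.K) ^ j = (χ g : W.K) ^ i l * (χ g : W.K) ^ (j - i l) := by
        rw [← pow_add]
        congr 1
        omega
      rw [h8, mul_smul] at h7
      exact smul_right_injective _ (pow_ne_zero _ (Units.ne_zero (χ g))) h7⟩
    have h7 := hTP (i l) (m l) (hmi l) ⟨Δ' l, hΔ' l, hc' l⟩
    have h8 := hC.mul (i l) (j - i l) _ _ (hC.map (fst P Y) _ _ h7) (hC.map (snd P Y) _ _ h6)
    rwa [show i l + (j - i l) = j by omega] at h8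
  · have h4 := hdeg l
    rw [if_neg h] at h4
    change W.map (fst P Y) (m l) * W.map (snd P Y) (x l) ∈ _
    rw [h4, map_zero, mul_zero]
    exact Submodule.zero_mem _

/-- from the product to the second factor -/
theorem tc_snd {χ : Γ →* W.Kˣ} (hC : IsSys C) (h2 : Intertwines (W.map (snd P Y)) τ υ)
    (hpt : ∃ a ∈ C P P.dim, W.tr P a ≠ 0) (hT : TC C χ (P.prod Y) υ) : TC C χ Y τ := by
  intro j c hcj ⟨Δ, hΔ, hc⟩
  have h3 := hT j (W.map (snd _ Y) c) (W.map_mem _ hcj) ⟨Δ, hΔ, fun g hg => by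
    rw [h2, hc g hg, map_smul]⟩
  obtain ⟨a, ha, ha0⟩ := hpt
  have h4 := hC.push j _ (hC.mul P.dim j _ _ (hC.map (fst P Y) _ _ ha) h3)
  rw [W.push_snd] at h4
  have h5 := Submodule.smul_mem _ (W.tr P a)⁻¹ h4
  rwa [smul_smul, inv_mul_cancel₀ ha0, one_smul] at h5

/-- **Towers.** -/
theorem tower_tc [IsAlgClosed W.K] {ι : Type} {V : ι → S.GRep W.K Γ} {Z : GVar W Γ}
    {L : List (ι × GVar W Γ)} {Y : GVar W Γ} {χ : Γ →* W.Kˣ} {m : ℕ} {E : Set ι}
    {U : Fin m → S.GRep W.K Γ} (hC : IsSys C) (hU : ∀ i ∉ E, ∀ a, Spl (fl (V i)) {fl (U a)})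
    (hV : ∀ i ∉ E, ∀ j ∉ E, j ≠ i → Spl (fl (V i)) {fl (V j)})
    (hZ : S.GeneratedBy U Z) (hY : S.Tower V Z L Y) :
    (∀ x ∈ L, x.1 ∉ E ∧ S.Twisted χ x.2 ∧ TC C χ x.2.X x.2.act ∧
      ∃ a ∈ C x.2.X x.2.X.dim, W.tr x.2.X a ≠ 0) →
    (TC C χ Y.X Y.act ↔ TC C χ Z.X Z.act) := by
  induction hY with
  | base => exact fun _ => Iff.rfl
  | @step L Y i P υ hT hi hP hυ ih =>
    intro hL
    have hL' := fun x hx => hL x (List.mem_cons_of_mem (i, P) hx)
    have hPL := hL (i, P) List.mem_cons_self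
    rw [← ih hL']
    constructor
    · intro h
      exact tc_snd hC hυ.2 hPL.2.2.2 h
    · intro h
      rintro j z hzj ⟨Δ, hΔ, hz⟩
      refine tc_step hC hυ.1 hυ.2 hPL.2.2.1 h hzj hΔ hz fun ψ => ?_
      have h5 := SP.slices hZ hT (i := i) (hU i hPL.1)
        (fun x hx => hV i hPL.1 x.1 (hL' x hx).1 (hi x hx)) hP
        hυ (z := z) ⟨Δ, hΔ, fun g hg => ⟨_, hz g hg⟩⟩ ψ
      exact (Submodule.span_le.2 fun y hy => hPL.2.1 y hy) h5

end

end Pool.Agent.N179.PC
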