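import Pool.Agent.N179.PC.Defs
import Pool.Agent.N179.PC.Eng

/-!
# Systems of classes and products with members of an independent family: the theorem
-/

set_option autoImplicit false
set_option linter.unusedSectionVars false

open CategoryTheory AlgebraicGeometry

universe u

namespace Pool.Agent.N179.PC

open Module Pool.Agent.TH125.Gal Pool.Agent.N179.GR Pool.Agent.N179.GR.S

open Pool.Agent.H914 Pool.Agent.H914.VarClass Pool.Agent.H914.VarClass.Obj
  Pool.Agent.H914.WeilCohomology Pool.Agent.W552 Pool.Agent.H281R3.HT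

variable {k : Type u} [Field k] {𝒱 : VarClass k} {ops : CycleOps 𝒱}
  {W : WeilCohomology.{u, 0} ops} {Γ : Type} [Group Γ]

/-- the span of a system of classes -/
def spn (S : Classes W) (X : 𝒱.Obj) (j : ℕ) : Submodule W.K (W.H X) := Submodule.span W.K (S X j)

theorem spn_map {S : Classes W} {X Y : 𝒱.Obj} {i j : ℕ} (f : W.H Y →ₗ[W.K] W.H X)
    (h : ∀ c ∈ S Y i, f c ∈ S X j) {c : W.H Y} (hc : c ∈ spn S Y i) : f c ∈ spn S X j := by
  have h1 : spn S Y i ≤ (spn S X j).comap f :=
    Submodule.span_le.2 fun x hx => Submodule.subset_span (h x hx)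
  exact h1 hc

theorem IsSystem.isSys {S : Classes W} (hS : IsSystem W S) : IsSys (spn S) where
  map f j c hc := spn_map (W.map f).toLinearMap (fun c hc => hS.pull f j c hc) hc
  mul {X} i j a b ha hb := by
    refine Submodule.span_induction (p := fun a _ => a * b ∈ spn S X (i + j)) ?_ ?_ ?_ ?_ ha
    · intro a ha
      refine Submodule.span_induction (p := fun b _ => a * b ∈ spn S X (i + j)) ?_ ?_ ?_ ?_ hb
      · exact fun b hb => Submodule.subset_span (hS.mul X i j a ha b hb)
      · rw [mul_zero]
        exact Submodule.zero_mem _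
      · intro x y _ _ hx hy
        rw [mul_add]
        exact Submodule.add_mem _ hx hy
      · intro c x _ hx
        rw [mul_smul_comm]
        exact Submodule.smul_mem _ _ hx
    · rw [zero_mul]
      exact Submodule.zero_mem _
    · intro x y _ _ hx hy
      rw [add_mul]
      exact Submodule.add_mem _ hx hy
    · intro c x _ hx
      rw [smul_mul_assoc]
      exact Submodule.smul_mem _ _ hx
  push {X Y} j c hc := spn_map (W.push (snd X Y)) (fun c hc => hS.push X Y j c hc) hc

/-- the classes in both systems -/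
def inter (S S' : Classes W) : Classes W := fun X j => S X j ∩ S' X j

theorem IsSystem.inter {S S' : Classes W} (hS : IsSystem W S) (hS' : IsSystem W S') :
    IsSystem W (inter S S') where
  alg X j c hc := ⟨hS.alg X j c hc, hS'.alg X j c hc⟩
  rat X j :=
    { zero := ⟨(hS.rat X j).zero, (hS'.rat X j).zero⟩
      add := fun a ha b hb => ⟨(hS.rat X j).add a ha.1 b hb.1, (hS'.rat X j).add a ha.2 b hb.2⟩
      smul := fun r a ha => ⟨(hS.rat X j).smul r a ha.1, (hS'.rat X j).smul r a ha.2⟩ }
  mul X i j a ha b hb := ⟨hS.mul X i j a ha.1 b hb.1, hS'.mul X i j a ha.2 b hb.2⟩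
  pull f j c hc := ⟨hS.pull f j c hc.1, hS'.pull f j c hc.2⟩
  push X Y j c hc := ⟨hS.push X Y j c hc.1, hS'.push X Y j c hc.2⟩

variable {T : HodgeData W Γ}

/-- all Hodge classes are in the system if and only if all potentially invariant classes are
combinations of classes in the system -/
theorem allIn_iff (hT : IsHodgeTheory T) {S : Classes W} (hS : IsSystem W S) (X : 𝒱.Obj) :
    AllIn T S X ↔ TC (spn (inter S T.hodge)) T.χ X (T.act X) := by
  constructor
  · intro h j c hc hg
    refine Submodule.span_mono ?_ (hT.spans X j c hc hg)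
    exact fun x hx => ⟨h j x hx, hx⟩
  · intro h j v hv
    have h1 := h j v (hT.degree X j hv) ⟨⊤, inferInstance, fun g _ => hT.fixes X j v hv g⟩
    obtain ⟨n, c, a, ha⟩ := (Submodule.mem_span_set').1 h1
    obtain ⟨r, hr⟩ := hT.rational X j n (fun i => (a i : W.H X)) c (fun i => (a i).2.2)
      (by rw [ha]; exact hv)
    rw [ha] at hr
    change v ∈ S X j
    rw [hr]
    have hrat := hS.rat X j
    clear ha hr
    refine Finset.sum_induction _ (fun x => x ∈ S X j) (fun x y hx hy => hrat.add x hx y hy)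
      hrat.zero fun i _ => hrat.smul _ _ (a i).2.1

theorem Products.tower (hT : IsHodgeTheory T) {ι : Type} {V : ι → GRep W.K Γ} {Z : 𝒱.Obj}
    {L : List (ι × 𝒱.Obj)} {Y : 𝒱.Obj} (h : Products T V Z L Y) :
    S.Tower V (T.var Z) (L.map fun x => (x.1, T.var x.2)) (T.var Y) := by
  induction h with
  | base => exact S.Tower.base
  | @step L Y i P hY hi hP ih =>
    refine S.Tower.step (Y := T.var Y) i (T.var P)
      (show Acts (T.var P) (T.var Y) from T.act (P.prod Y)) ih ?_ hP
      ⟨hT.natural (fst P Y), hT.natural (snd P Y)⟩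
    intro x hx
    obtain ⟨y, hy, rfl⟩ := List.mem_map.1 hx
    exact hi y hy

/-- **The theorem.** -/
theorem final (hK : Nonempty (W.K ≃+* ℂ)) {ι : Type} (hT : IsHodgeTheory T)
    {V : ι → GRep W.K Γ} (hV : Family V) :
    ∃ E : GRep W.K Γ → Set ι, ExceptionalSets T V E := by
  obtain ⟨e⟩ := hK
  have halg : IsAlgClosed W.K := IsAlgClosed.of_ringEquiv ℂ W.K e.symm
  refine ⟨Exc V, fun U => (exceptional e hV U).finite, ?_, ?_,
    fun m U Z hZ S hS L Y hY hL => ?_⟩
  · intro j i hi
    by_contra h
    exact hi (hV.pair h)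
  · intro Z
    refine (exceptional e hV (coh (T.var Z))).card_form
      ⟨(LinearMap.mul W.K (W.H Z)).compr₂ (W.tr Z), fun x hx => W.nondeg x fun y => hx y,
        T.χ ^ Z.dim, fun g (x y : W.H Z) => ?_⟩
    have h1 := hT.trace Z g (x * y)
    rw [map_mul] at h1
    rw [MonoidHom.pow_apply, Units.val_pow_eq_pow_val]
    exact h1
  · rw [allIn_iff hT hS, allIn_iff hT hS]
    refine tower_tc (U := U) (E := ⋃ a, Exc V (U a)) (hS.inter hT.system).isSys (fun i hi a => ?_)
      (fun i _ j _ hij => hV.pair hij.symm) hZ (hY.tower hT) ?_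
    · by_contra h
      exact hi (Set.mem_iUnion.2 ⟨a, h⟩)
    · intro x hx
      obtain ⟨y, hy, rfl⟩ := List.mem_map.1 hx
      obtain ⟨h1, h2, h3⟩ := hL y hy
      obtain ⟨a, ha, ha0⟩ := h2.point
      exact ⟨h1, h2.twisted, (allIn_iff hT hS _).1 h3, a,
        Submodule.subset_span ⟨hS.alg _ _ a ha, hT.system.alg _ _ a ha⟩, ha0⟩

end Pool.Agent.N179.PC
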