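import Pool.Agent.N179.PC.Defs

/-!
# Conjugates of Hodge classes, and several embeddings: definitions
-/

set_option autoImplicit false

universe u

namespace Pool.Agent.N179.PC

open Pool.Agent.H914 Pool.Agent.H914.VarClass Pool.Agent.H914.VarClass.Obj
  Pool.Agent.H914.WeilCohomology

section Alg

variable {K : Type} [Field K] {A : Type} [Ring A] [Algebra K A] {K' : Type} [Field K'] {A' : Type}
  [Ring A'] [Algebra K' A']

/-- The map is additive, multiplicative, and commutes with rational numbers (but it need not be linear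
over `K`). -/
structure IsRatHom (K : Type) [Field K] (K' : Type) [Field K'] {A : Type} [Ring A] [Algebra K A]
    {A' : Type} [Ring A'] [Algebra K' A'] (e : A → A') : Prop where
  add : ∀ a b, e (a + b) = e a + e b
  mul : ∀ a b, e (a * b) = e a * e b
  smul : ∀ (r : ℚ) (a : A), e ((r : K) • a) = (r : K') • e a

variable {B : Type} [Ring B] [Algebra K B] {B' : Type} [Ring B'] [Algebra K' B']

/-- The homomorphisms `f`, `f'` commute with the maps `e`, `e'`. -/
def SqAlg (f : B →ₐ[K] A) (f' : B' →ₐ[K'] A') (e : B → B') (e' : A → A') : Prop :=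
  ∀ b, e' (f b) = f' (e b)

/-- The linear maps `f`, `f'` commute with the maps `e`, `e'`. -/
def SqLin (f : B →ₗ[K] A) (f' : B' →ₗ[K'] A') (e : B → B') (e' : A → A') : Prop :=
  ∀ b, e' (f b) = f' (e b)

end Alg

variable {k : Type u} [Field k] {𝒱 : VarClass k} {ops : CycleOps 𝒱}

/-- A family of maps `H(X) → H'(X)`, for instance the conjugation `v ↦ v_σ` from the cohomology
`H(X)` of `X` to the cohomology `H'(X)` of the conjugate variety. -/
abbrev Maps (W W' : WeilCohomology.{u, 0} ops) : Type (u + 1) := ∀ X : 𝒱.Obj, W.H X → W'.H X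

/-- The maps respect sums, products, rational multiples, the classes of cycles, pull-backs, and
push-forwards along projections. -/
structure IsConjugation (W W' : WeilCohomology.{u, 0} ops) (e : Maps W W') : Prop where
  hom : ∀ X, IsRatHom W.K W'.K (e X)
  cycle : ∀ X, (e X ∘ W.cl X) = W'.cl X
  pull : ∀ {X Y : 𝒱.Obj} (f : X ⟶ Y), SqAlg (W.map f) (W'.map f) (e Y) (e X)
  push : ∀ X Y : 𝒱.Obj, SqLin (W.push (snd X Y)) (W'.push (snd X Y)) (e (X.prod Y)) (e Y)

/-- The classes `v` with `v_σ` in `S'`. -/
def conjSystem {W W' : WeilCohomology.{u, 0} ops} (e : Maps W W') (S' : Classes W') : Classes W :=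
  fun X j => {v | e X v ∈ S' X j}

/-- The classes which are in all the systems `S ρ`. -/
def absolute {W : WeilCohomology.{u, 0} ops} {R : Type} (S : R → Classes W) : Classes W :=
  fun X j => {v | ∀ ρ, v ∈ S ρ X j}

end Pool.Agent.N179.PC
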