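import Pool.Agent.N179.GR.Defs

/-!
# Systems of classes and products with members of an independent family: definitions
-/

set_option autoImplicit false

universe u

namespace Pool.Agent.N179.PC

open Pool.Agent.TH125.Gal Pool.Agent.N179.GR.S
open Pool.Agent.H914 Pool.Agent.H914.VarClass Pool.Agent.H914.VarClass.Obj
  Pool.Agent.H914.WeilCohomology

section Alg

/-- The characters of `Γ` with values in `K`. -/
abbrev Chr (K : Type) [Field K] (Γ : Type) [Group Γ] : Type := Γ →* Kˣ

variable {K : Type} [Field K] {A : Type} [Ring A] [Algebra K A] {B : Type} [Ring B] [Algebra K B]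
  {Γ : Type} [Group Γ]

/-- The set is stable under sums and under multiplication with rational numbers. -/
structure RatStable (K : Type) [Field K] {A : Type} [Ring A] [Algebra K A] (S : Set A) : Prop where
  zero : (0 : A) ∈ S
  add : ∀ a ∈ S, ∀ b ∈ S, a + b ∈ S
  smul : ∀ (r : ℚ), ∀ a ∈ S, (r : K) • a ∈ S

/-- The map `f` maps `S j` to `S' j`. -/
def MapStable (f : B → A) (S : ℕ → Set B) (S' : ℕ → Set A) : Prop := ∀ j, ∀ c ∈ S j, f c ∈ S' j

/-- The products of elements of `S i` and of `S j` are in `S (i + j)`. -/
def MulStable (S : ℕ → Set A) : Prop := ∀ i j, ∀ a ∈ S i, ∀ b ∈ S j, a * b ∈ S (i + j)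

/-- The set of rational elements `S` is a rational structure on its span: if a linear combination of
elements of `S` is in `S`, then it is a linear combination with rational coefficients. -/
def Rational (K : Type) [Field K] {A : Type} [Ring A] [Algebra K A] (S : Set A) : Prop :=
  ∀ (n : ℕ) (v : Fin n → A) (c : Fin n → K), (∀ i, v i ∈ S) → ∑ i, c i • v i ∈ S →
    ∃ r : Fin n → ℚ, ∑ i, c i • v i = ∑ i, (r i : K) • v i

/-- `g` multiplies the elements of `S j` by `χ(g)^j`. -/
def Fixes (χ : Chr K Γ) (S : ℕ → Set A) (ρ : AlgActs K A Γ) : Prop :=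
  ∀ j, ∀ c ∈ S j, ∀ g : Γ, (show Γ →* (A ≃ₐ[K] A) from ρ) g c = (χ g : K) ^ j • c

end Alg

variable {k : Type u} [Field k] {𝒱 : VarClass k} {ops : CycleOps 𝒱}

/-- The families of sets of classes: sets `S X j` of classes on all varieties `X`, for all `j`. -/
abbrev Classes (W : WeilCohomology.{u, 0} ops) : Type (u + 1) := ∀ X : 𝒱.Obj, ℕ → Set (W.H X)

/-- A system of classes: rational subspaces `S X j` of the cohomology of all varieties `X`, which
contain the classes of the cycles of codimension `j`, stable under pull-backs, products, and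
push-forwards along the projections. -/
structure IsSystem (W : WeilCohomology.{u, 0} ops) (S : Classes W) : Prop where
  alg : ∀ X, MapStable id (algClasses W X) (S X)
  rat : ∀ X j, RatStable W.K (S X j)
  mul : ∀ X, MulStable (S X)
  pull : ∀ {X Y : 𝒱.Obj} (f : X ⟶ Y), MapStable (W.map f) (S Y) (S X)
  push : ∀ X Y : 𝒱.Obj, MapStable (W.push (snd X Y)) (fun j => S (X.prod Y) (X.dim + j)) (S Y)

variable {W : WeilCohomology.{u, 0} ops} {Γ : Type} [Group Γ]

/-- Actions of the group `Γ` on the cohomology of all varieties, and Hodge classes. -/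
structure HodgeData (W : WeilCohomology.{u, 0} ops) (Γ : Type) [Group Γ] where
  /-- the action of the Mumford–Tate group -/
  act : ∀ X : 𝒱.Obj, AlgActs W.K (W.H X) Γ
  /-- the action on the Tate twist -/
  χ : Chr W.K Γ
  /-- the Hodge classes on `X` of degree `2 j` -/
  hodge : Classes W

/-- The variety with the action. -/
def HodgeData.var (T : HodgeData W Γ) (X : 𝒱.Obj) : GVar W Γ := ⟨X, T.act X⟩

/-- The properties of the Hodge classes and of the Mumford–Tate group `Γ`: the action is compatible
with pull-backs and (up to the character) with the traces; the Hodge classes are in the degrees `2 j`,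
a system of classes and rational; they are multiplied by `χ(g)^j`, and all classes of degree `2 j` which are
multiplied by `χ(g)^j` by all `g` in a subgroup of finite index are combinations of Hodge
classes. -/
structure IsHodgeTheory (T : HodgeData W Γ) : Prop where
  natural : ∀ {X Y : 𝒱.Obj} (f : X ⟶ Y), Intertwines (W.map f) (T.act Y) (T.act X)
  trace : ∀ X, TraceAct T.χ X.dim (W.tr X) (T.act X)
  degree : ∀ X j, T.hodge X j ⊆ W.gr X (2 * j)
  system : IsSystem W T.hodge
  rational : ∀ X j, Rational W.K (T.hodge X j)
  fixes : ∀ X, Fixes T.χ (T.hodge X) (T.act X)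
  spans : ∀ X, TateAct T.χ (W.gr X) (T.hodge X) (T.act X)

/-- All Hodge classes on `X` belong to the system `S`. -/
def AllIn (T : HodgeData W Γ) (S : Classes W) (X : 𝒱.Obj) : Prop :=
  MapStable id (T.hodge X) (S X)

/-- The factor `P`: the classes in `H(P)` which span lines that are stable under `Γ` (under a subgroup
of finite index) are linear combinations of Hodge classes, and there is a zero-cycle whose degree is
not zero. -/
structure IsFactor (T : HodgeData W Γ) (P : 𝒱.Obj) : Prop where
  twisted : Twisted T.χ (T.var P)
  point : HasPoint (T.var P)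

/-- The products `Y = P_1 × (P_2 × ( ⋯ × Z))`, where `P_a` is a variety whose cohomology is
semisimple and generated by `V i_a`, and the indices `i_a` are pairwise different; `L` is the list
of the pairs `(i_a, P_a)`. -/
inductive Products (T : HodgeData W Γ) {ι : Type} (V : ι → GRep W.K Γ) (Z : 𝒱.Obj) :
    List (ι × 𝒱.Obj) → 𝒱.Obj → Prop
  | base : Products T V Z [] Z
  | step {L : List (ι × 𝒱.Obj)} {Y : 𝒱.Obj} (i : ι) (P : 𝒱.Obj) : Products T V Z L Y →
      (∀ x ∈ L, x.1 ≠ i) → OfType (V i) (T.var P) → Products T V Z ((i, P) :: L) (P.prod Y)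

/-- All Hodge classes on the products `Y` over `Z` without indices in `E`, with factors `P_a` for which
all Hodge classes are in the system `S`, are in `S` if and only if all Hodge classes on `Z` are. -/
def Reduces (T : HodgeData W Γ) {ι : Type} (V : ι → GRep W.K Γ) (Z : 𝒱.Obj) (E : Set ι)
    (S : Classes W) : Prop :=
  ∀ (L : List (ι × 𝒱.Obj)) (Y : 𝒱.Obj), Products T V Z L Y →
    (∀ x ∈ L, x.1 ∉ E ∧ IsFactor T x.2 ∧ AllIn T S x.2) → (AllIn T S Y ↔ AllIn T S Z)

/-- `E U` is the set of the exceptional indices with respect to the representation `U`: it is finite; no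
`j ≠ i` is exceptional with respect to `V i`; for every variety `Z`, the number of the exceptional
indices with respect to the cohomology of `Z` is at most one half of `b - b'`, where `b` is the sum of
the Betti numbers and `b'` is the dimension of the span of the semi-invariant classes; and if the
cohomology of `Z` is generated by finitely many representations `U a` (for instance by the cohomology
of a variety `Z'` of which `Z` is a power), then `Reduces` is true for the union of the `E (U a)` and
all systems `S`. -/
structure ExceptionalSets (T : HodgeData W Γ) {ι : Type} (V : ι → GRep W.K Γ)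
    (E : GRep W.K Γ → Set ι) : Prop where
  finite : ∀ U, (E U).Finite
  self : ∀ i, E (V i) ⊆ {i}
  variety : ∀ Z : 𝒱.Obj, 2 * (E (coh (T.var Z))).ncard + (semiSpan (coh (T.var Z))).dim ≤
    dim (coh (T.var Z))
  reduces : ∀ (m : ℕ) (U : Fin m → GRep W.K Γ) (Z : 𝒱.Obj), GeneratedBy U (T.var Z) →
    ∀ S : Classes W, IsSystem W S → Reduces T V Z (⋃ a, E (U a)) S

end Pool.Agent.N179.PC
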