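import Pool.Agent.N179.PC.Conj

/-!
# Conjugates of Hodge classes on products with members of an independent family: definitions
-/

set_option autoImplicit false

universe u

namespace Pool.Agent.N179.PC

open Pool.Agent.TH125.Gal Pool.Agent.N179.GR.S
open Pool.Agent.H914 Pool.Agent.H914.VarClass Pool.Agent.H914.VarClass.Obj
  Pool.Agent.H914.WeilCohomology

variable {k : Type u} [Field k] {𝒱 : VarClass k} {ops : CycleOps 𝒱}
  {W : WeilCohomology.{u, 0} ops} {Γ : Type} [Group Γ]

/-- `E U` is the set of the exceptional indices with respect to the representation `U`: it is finite; no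
`j ≠ i` is exceptional with respect to `V i`; for every variety `Z`, the number of the exceptional
indices with respect to the cohomology of `Z` is at most one half of `b - b'`, where `b` is the sum of
the Betti numbers and `b'` is the dimension of the span of the semi-invariant classes. -/
structure Bounds (T : HodgeData W Γ) {ι : Type} (V : ι → GRep W.K Γ)
    (E : GRep W.K Γ → Set ι) : Prop where
  finite : ∀ U, (E U).Finite
  self : ∀ i, E (V i) ⊆ {i}
  variety : ∀ Z : 𝒱.Obj, 2 * (E (coh (T.var Z))).ncard + (semiSpan (coh (T.var Z))).dim ≤
    dim (coh (T.var Z))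

/-- The conjugates of the Hodge classes: for all families (indexed by automorphisms `σ ∈ R` of the field)
of maps `e σ : v ↦ v_σ` to the cohomology of the conjugate varieties, with systems `H σ` (the Hodge
classes on the conjugate varieties), the statement that `v_σ` is a Hodge class for all Hodge classes `v`
and all `σ` is true for the products `Y` over `Z` without indices in the sets `E (U a)` if and only if
it is true for `Z`, if `Z` is generated by the representations `U a` and the statement is true for the
factors. -/
def ConjugatesReduce (T : HodgeData W Γ) {ι : Type} (V : ι → GRep W.K Γ)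
    (E : GRep W.K Γ → Set ι) : Prop :=
  ∀ (m : ℕ) (U : Fin m → GRep W.K Γ) (Z : 𝒱.Obj), GeneratedBy U (T.var Z) →
    ∀ (R : Type) (W' : R → WeilCohomology.{u, 0} ops) (e : ∀ σ, Maps W (W' σ))
      (H : ∀ σ, Classes (W' σ)), (∀ σ, IsConjugation W (W' σ) (e σ) ∧ IsSystem (W' σ) (H σ)) →
      Reduces T V Z (⋃ a, E (U a)) (absolute fun σ => conjSystem (e σ) (H σ))

/-- Several embeddings: for all families `H ρ` of systems (the classes which become Hodge under the
embedding `ρ`) the statement that all classes which are Hodge under the given embedding are Hodge under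
all embeddings `ρ` is true for the products `Y` over `Z` without indices in the sets `E (U a)` if and
only if it is true for `Z`, if `Z` is generated by the representations `U a` and the statement is
true for the factors. -/
def EmbeddingsReduce (T : HodgeData W Γ) {ι : Type} (V : ι → GRep W.K Γ)
    (E : GRep W.K Γ → Set ι) : Prop :=
  ∀ (m : ℕ) (U : Fin m → GRep W.K Γ) (Z : 𝒱.Obj), GeneratedBy U (T.var Z) →
    ∀ (R : Type) (H : R → Classes W), (∀ ρ, IsSystem W (H ρ)) →
      Reduces T V Z (⋃ a, E (U a)) (absolute H)

/-- The varieties whose cohomology algebra is generated by semi-invariant classes and by the images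
of the cohomology of `Z` (under maps which are equivariant under a subgroup of finite index), for
instance the powers of `Z`. -/
def GenBy (T : HodgeData W Γ) (Z : 𝒱.Obj) : Set 𝒱.Obj :=
  {Z' | GeneratedBy (fun _ : Unit => coh (T.var Z)) (T.var Z')}

/-- The products of members of `𝒵` and of varieties `P_a` generated by `V i_a`, with pairwise
different `i_a ∉ E`, for which all Hodge classes are in the system `S`. -/
def Extended (T : HodgeData W Γ) {ι : Type} (V : ι → GRep W.K Γ) (E : Set ι) (S : Classes W)
    (𝒵 : Set 𝒱.Obj) : Set 𝒱.Obj :=
  {Y | ∃ Z ∈ 𝒵, ∃ L : List (ι × 𝒱.Obj), Products T V Z L Y ∧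
    ∀ x ∈ L, x.1 ∉ E ∧ IsFactor T x.2 ∧ AllIn T S x.2}

/-- All Hodge classes on the members of `𝒵` are in the system `S`. -/
def AllOn (T : HodgeData W Γ) (S : Classes W) (𝒵 : Set 𝒱.Obj) : Prop := ∀ Z ∈ 𝒵, AllIn T S Z

/-- For all `Z` and all systems `S`: the Hodge classes on the varieties generated by `Z` are in `S` if
and only if the Hodge classes on the larger set `Extended` are. -/
def CategoryReduces (T : HodgeData W Γ) {ι : Type} (V : ι → GRep W.K Γ)
    (E : GRep W.K Γ → Set ι) : Prop :=
  ∀ (Z : 𝒱.Obj) (S : Classes W), IsSystem W S →
    (AllOn T S (Extended T V (E (coh (T.var Z))) S (GenBy T Z)) ↔ AllOn T S (GenBy T Z))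

end Pool.Agent.N179.PC
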