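import Pool.Agent.N179.PC.Defs2
import Pool.Agent.N179.PC.Fin

/-!
# Conjugates of Hodge classes on products with members of an independent family: the theorems
-/

set_option autoImplicit false
set_option linter.unusedSectionVars false

universe u

namespace Pool.Agent.N179.PC

open Pool.Agent.TH125.Gal Pool.Agent.N179.GR Pool.Agent.N179.GR.S

open Pool.Agent.H914 Pool.Agent.H914.VarClass Pool.Agent.H914.VarClass.Obj
  Pool.Agent.H914.WeilCohomology

variable {k : Type u} [Field k] {𝒱 : VarClass k} {ops : CycleOps 𝒱}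
  {W : WeilCohomology.{u, 0} ops} {Γ : Type} [Group Γ] {T : HodgeData W Γ}
  {ι : Type} {V : ι → GRep W.K Γ} {E : GRep W.K Γ → Set ι}

theorem IsConjugation.system {W W' : WeilCohomology.{u, 0} ops} {e : Maps W W'} {S' : Classes W'}
    (he : IsConjugation W W' e) (h : IsSystem W' S') : IsSystem W (conjSystem e S') where
  alg X j c hc := by
    obtain ⟨z, hz, rfl⟩ := hc
    have h1 : e X (W.cl X z) = W'.cl X z := congrFun (he.cycle X) z
    change e X (W.cl X z) ∈ S' X j
    rw [h1]
    exact h.alg X j _ ⟨z, hz, rfl⟩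
  rat X j :=
    { zero := by
        have h1 := (he.hom X).smul 0 0
        rw [Rat.cast_zero, Rat.cast_zero, zero_smul, zero_smul] at h1
        change e X 0 ∈ S' X j
        rw [h1]
        exact (h.rat X j).zero
      add := fun a ha b hb => by
        change e X (a + b) ∈ S' X j
        rw [(he.hom X).add]
        exact (h.rat X j).add _ ha _ hb
      smul := fun r a ha => by
        change e X ((r : W.K) • a) ∈ S' X j
        rw [(he.hom X).smul]
        exact (h.rat X j).smul r _ ha }
  mul X i j a ha b hb := by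
    change e X (a * b) ∈ S' X (i + j)
    rw [(he.hom X).mul]
    exact h.mul X i j _ ha _ hb
  pull {X Y} f j c hc := by
    change e X (W.map f c) ∈ S' X j
    rw [he.pull f c]
    exact h.pull f j _ hc
  push X Y j c hc := by
    change e Y (W.push (snd X Y) c) ∈ S' Y j
    rw [he.push X Y c]
    exact h.push X Y j _ hc

theorem absolute_system {W : WeilCohomology.{u, 0} ops} {R : Type} {S : R → Classes W}
    (h : ∀ ρ, IsSystem W (S ρ)) : IsSystem W (absolute S) where
  alg X j c hc ρ := (h ρ).alg X j c hc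
  rat X j :=
    { zero := fun ρ => ((h ρ).rat X j).zero
      add := fun a ha b hb ρ => ((h ρ).rat X j).add a (ha ρ) b (hb ρ)
      smul := fun r a ha ρ => ((h ρ).rat X j).smul r a (ha ρ) }
  mul X i j a ha b hb ρ := (h ρ).mul X i j a (ha ρ) b (hb ρ)
  pull f j c hc ρ := (h ρ).pull f j c (hc ρ)
  push X Y j c hc ρ := (h ρ).push X Y j c (hc ρ)

theorem ExceptionalSets.bounds (h : ExceptionalSets T V E) : Bounds T V E :=
  ⟨h.finite, h.self, h.variety⟩

theorem ExceptionalSets.conjugates (h : ExceptionalSets T V E) : ConjugatesReduce T V E :=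
  fun m U Z hZ _ _ _ _ he => h.reduces m U Z hZ _
    (absolute_system fun σ => (he σ).1.system (he σ).2)

theorem ExceptionalSets.embeddings (h : ExceptionalSets T V E) : EmbeddingsReduce T V E :=
  fun m U Z hZ _ _ hH => h.reduces m U Z hZ _ (absolute_system hH)

theorem GenBy.fin {Z Z' : 𝒱.Obj} (h : Z' ∈ GenBy T Z) :
    GeneratedBy (fun _ : Fin 1 => coh (T.var Z)) (T.var Z') := by
  have h1 : images (fun _ : Unit => coh (T.var Z)) (T.var Z').act ⊆
      images (fun _ : Fin 1 => coh (T.var Z)) (T.var Z').act := by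
    rintro x ⟨_, f, v, hf, hx⟩
    exact ⟨0, f, v, hf, hx⟩
  have h2 : Algebra.adjoin W.K (semis (T.var Z').act ∪
      images (fun _ : Unit => coh (T.var Z)) (T.var Z').act) = ⊤ := h
  refine top_le_iff.1 ?_
  rw [← h2]
  exact Algebra.adjoin_mono (Set.union_subset_union_right _ h1)

theorem ExceptionalSets.category (h : ExceptionalSets T V E) : CategoryReduces T V E := by
  intro Z S hS
  constructor
  · intro hA Z' hZ'
    exact hA Z' ⟨Z', hZ', [], Products.base, by simp⟩
  · rintro hA Y ⟨Z', hZ', L, hY, hL⟩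
    refine (h.reduces 1 (fun _ => coh (T.var Z)) Z' (GenBy.fin hZ') S hS L Y hY fun x hx => ?_).2
      (hA Z' hZ')
    obtain ⟨h1, h2⟩ := hL x hx
    refine ⟨fun h3 => h1 ?_, h2⟩
    obtain ⟨a, ha⟩ := Set.mem_iUnion.1 h3
    exact ha

end Pool.Agent.N179.PC
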