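import Pool.Agent.N179.PC.Defs

/-!
# The Mumford–Tate conjecture on products with members of an independent family: definitions
-/

set_option autoImplicit false

universe u

namespace Pool.Agent.N179.PC

open Pool.Agent.TH125.Gal Pool.Agent.N179.GR.S
open Pool.Agent.H914 Pool.Agent.H914.VarClass Pool.Agent.H914.VarClass.Obj
  Pool.Agent.H914.WeilCohomology

section Alg

variable {K : Type} [Field K] {A : Type} [Ring A] [Algebra K A] {Γ : Type} [Group Γ]

/-- The elements of `gr (2 j)` which are multiplied by `χ(g)^j` by all `g` in a subgroup of finite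
index. -/
def tateSet (χ : Chr K Γ) (gr : ℕ → Submodule K A) (ρ : AlgActs K A Γ) (j : ℕ) : Set A :=
  {c | c ∈ gr (2 * j) ∧ ∃ Δ : Subgroup Γ, Δ.FiniteIndex ∧
    ∀ g ∈ Δ, (show Γ →* (A ≃ₐ[K] A) from ρ) g c = (χ g : K) ^ j • c}

/-- The space spanned by `S j` is `T j`, for all `j`. -/
def SpanIs (K : Type) [Field K] {A : Type} [Ring A] [Algebra K A] (S T : ℕ → Set A) : Prop :=
  ∀ j, (Submodule.span K (S j) : Set A) = T j

end Alg

variable {k : Type u} [Field k] {𝒱 : VarClass k} {ops : CycleOps 𝒱}
  {W : WeilCohomology.{u, 0} ops} {Γ : Type} [Group Γ] {G : Type} [Group G]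

/-- Actions of the group `G` on the cohomology of all varieties. -/
structure GaloisData (W : WeilCohomology.{u, 0} ops) (G : Type) [Group G] where
  /-- the action of the Galois group -/
  act : ∀ X : 𝒱.Obj, AlgActs W.K (W.H X) G
  /-- the action on the Tate twist -/
  χ : Chr W.K G

/-- The variety with the action. -/
def GaloisData.var (Q : GaloisData W G) (X : 𝒱.Obj) : GVar W G := ⟨X, Q.act X⟩

/-- The action is compatible with pull-backs and (up to the character) with the traces. -/
structure IsGalois (Q : GaloisData W G) : Prop where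
  natural : ∀ {X Y : 𝒱.Obj} (f : X ⟶ Y), Intertwines (W.map f) (Q.act Y) (Q.act X)
  trace : ∀ X, TraceAct Q.χ X.dim (W.tr X) (Q.act X)

/-- The Mumford–Tate conjecture for `X`: for all `j`, the space spanned by the Hodge classes of
degree `2 j` is the space of the Tate classes. -/
def MumfordTate (T : HodgeData W Γ) (Q : GaloisData W G) (X : 𝒱.Obj) : Prop :=
  SpanIs W.K (T.hodge X) (tateSet Q.χ (W.gr X) (Q.act X))

/-- The factor `P` is generated by `V` for the Mumford–Tate group and by `V'` for the Galois group, and
semisimple for both; for both groups the classes in `H(P)` which span lines that are stable under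
a subgroup of finite index are combinations of Hodge classes and of Tate classes respectively; there is
a zero-cycle of degree different from zero, and the Mumford–Tate conjecture is true for `P`. -/
structure IsMTFactor (T : HodgeData W Γ) (Q : GaloisData W G) (V : GRep W.K Γ) (V' : GRep W.K G)
    (P : 𝒱.Obj) : Prop where
  hodge : OfType V (T.var P)
  galois : OfType V' (Q.var P)
  twisted : Twisted T.χ (T.var P)
  twisted' : Twisted Q.χ (Q.var P)
  point : HasPoint (T.var P)
  mt : MumfordTate T Q P

/-- The products `Y = P_1 × (P_2 × ( ⋯ × Z))`, where `P_a` is a factor for `V i_a` and `V' i_a`, and the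
indices `i_a` are pairwise different and not in `E`; `I` is the set of the indices `i_a`. -/
inductive MTProducts (T : HodgeData W Γ) (Q : GaloisData W G) {ι : Type} (V : ι → GRep W.K Γ)
    (V' : ι → GRep W.K G) (E : Set ι) (Z : 𝒱.Obj) : Set ι → 𝒱.Obj → Prop
  | base : MTProducts T Q V V' E Z ∅ Z
  | step {I : Set ι} {Y : 𝒱.Obj} (i : ι) (P : 𝒱.Obj) : MTProducts T Q V V' E Z I Y →
      i ∉ I → i ∉ E → IsMTFactor T Q (V i) (V' i) P → MTProducts T Q V V' E Z (insert i I) (P.prod Y)

/-- `E U` and `E' U'` are the sets of the exceptional indices with respect to the representation `U` of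
the Mumford–Tate group and `U'` of the Galois group. They are finite; no `j ≠ i` is exceptional with
respect to `V i` or `V' i`; for every variety `Z`, the numbers of the exceptional indices with respect
to the cohomology of `Z` are at most one half of `b - b'`, where `b` is the sum of the Betti numbers and
`b'` is the dimension of the span of the semi-invariant classes (for the respective group); and if the
cohomology of `Z` is generated by finitely many representations `U a` of the Mumford–Tate group and
by finitely many representations `U' a` of the Galois group, the Mumford–Tate conjecture for the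
products `Y` over `Z` without indices in the `E (U a)` and `E' (U' a)` is equivalent to the
Mumford–Tate conjecture for `Z`. -/
structure MTExceptionalSets (T : HodgeData W Γ) (Q : GaloisData W G) {ι : Type}
    (V : ι → GRep W.K Γ) (V' : ι → GRep W.K G) (E : GRep W.K Γ → Set ι)
    (E' : GRep W.K G → Set ι) : Prop where
  finite : (∀ U, (E U).Finite) ∧ ∀ U, (E' U).Finite
  self : ∀ i, E (V i) ⊆ {i} ∧ E' (V' i) ⊆ {i}
  variety : ∀ Z : 𝒱.Obj,
    2 * (E (coh (T.var Z))).ncard + (semiSpan (coh (T.var Z))).dim ≤ dim (coh (T.var Z)) ∧
    2 * (E' (coh (Q.var Z))).ncard + (semiSpan (coh (Q.var Z))).dim ≤ dim (coh (Q.var Z))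
  reduces : ∀ (m m' : ℕ) (U : Fin m → GRep W.K Γ) (U' : Fin m' → GRep W.K G) (Z : 𝒱.Obj),
    GeneratedBy U (T.var Z) → GeneratedBy U' (Q.var Z) →
    ∀ (I : Set ι) (Y : 𝒱.Obj), MTProducts T Q V V' ((⋃ a, E (U a)) ∪ ⋃ a, E' (U' a)) Z I Y →
      (MumfordTate T Q Y ↔ MumfordTate T Q Z)

end Pool.Agent.N179.PC
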