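import Pool.Agent.N179.PC.MT
import Pool.Agent.N179.PC.Fin

/-!
# The Mumford–Tate conjecture on products with members of an independent family: the theorem
-/

set_option autoImplicit false
set_option linter.unusedSectionVars false

open CategoryTheory AlgebraicGeometry

universe u

namespace Pool.Agent.N179.PC

open Module Pool.Agent.TH125.Gal Pool.Agent.N179.GR Pool.Agent.N179.GR.S

open Pool.Agent.H914 Pool.Agent.H914.VarClass Pool.Agent.H914.VarClass.Obj
  Pool.Agent.H914.WeilCohomology Pool.Agent.W552 Pool.Agent.H281R3.HT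

variable {k : Type u} [Field k] {𝒱 : VarClass k} {ops : CycleOps 𝒱}
  {W : WeilCohomology.{u, 0} ops} {Γ : Type} [Group Γ] {G : Type} [Group G]

/-- the action -/
def GaloisData.rho (Q : GaloisData W G) (X : 𝒱.Obj) : G →* (W.H X ≃ₐ[W.K] W.H X) := Q.act X

/-- the space of Tate classes -/
def tateSub (Q : GaloisData W G) (X : 𝒱.Obj) (j : ℕ) : Submodule W.K (W.H X) where
  carrier := tateSet Q.χ (W.gr X) (Q.act X) j
  zero_mem' := ⟨Submodule.zero_mem _, ⊤, inferInstance, fun g _ => by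
    change (Q.rho X g) 0 = _
    rw [map_zero, smul_zero]⟩
  add_mem' := by
    rintro a b ⟨ha, Δ, hΔ, hg⟩ ⟨hb, Δ', hΔ', hg'⟩
    refine ⟨Submodule.add_mem _ ha hb, Δ ⊓ Δ', inferInstance, fun g h => ?_⟩
    have h1 := hg g h.1
    have h2 := hg' g h.2
    change (Q.rho X g) (a + b) = _
    change (Q.rho X g) a = _ at h1
    change (Q.rho X g) b = _ at h2
    rw [map_add, h1, h2, smul_add]
  smul_mem' := by
    rintro c a ⟨ha, Δ, hΔ, hg⟩
    refine ⟨Submodule.smul_mem _ c ha, Δ, hΔ, fun g h => ?_⟩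
    have h1 := hg g h
    change (Q.rho X g) a = _ at h1
    change (Q.rho X g) (c • a) = _
    rw [map_smul, h1, smul_comm]

theorem mem_tateSub {Q : GaloisData W G} {X : 𝒱.Obj} {j : ℕ} {c : W.H X} :
    c ∈ tateSub Q X j ↔ c ∈ W.gr X (2 * j) ∧ ∃ Δ : Subgroup G, Δ.FiniteIndex ∧
      ∀ g ∈ Δ, Q.rho X g c = (Q.χ g : W.K) ^ j • c := Iff.rfl

theorem push_gr {X Y : 𝒱.Obj} {j : ℕ} {c : W.H (X.prod Y)}
    (hc : c ∈ W.gr (X.prod Y) (2 * (X.dim + j))) : W.push (snd X Y) c ∈ W.gr Y (2 * j) := by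
  have h1 := W.push_mem (snd X Y) hc
  have e : ((2 * (X.dim + j) : ℕ) : ℤ) + 2 * ((Y.dim : ℤ) - (X.prod Y).dim) = ((2 * j : ℕ) : ℤ) := by
    rw [dim_prod]; push_cast; ring
  rwa [e, grZ_natCast] at h1

theorem tate_isSys {Q : GaloisData W G} (hQ : IsGalois Q) : IsSys (tateSub Q) where
  map {X Y} f j c hc := by
    obtain ⟨h1, Δ, hΔ, hg⟩ := mem_tateSub.1 hc
    refine mem_tateSub.2 ⟨W.map_mem f h1, Δ, hΔ, fun g h => ?_⟩
    have h2 : Q.rho X g (W.map f c) = W.map f (Q.rho Y g c) := hQ.natural f g c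
    rw [h2, hg g h, map_smul]
  mul {X} i j a b ha hb := by
    obtain ⟨h1, Δ, hΔ, hg⟩ := mem_tateSub.1 ha
    obtain ⟨h1', Δ', hΔ', hg'⟩ := mem_tateSub.1 hb
    refine mem_tateSub.2 ⟨?_, Δ ⊓ Δ', inferInstance, fun g h => ?_⟩
    · rw [mul_add]
      exact W.mul_mem h1 h1'
    · rw [map_mul, hg g h.1, hg' g h.2, smul_mul_smul_comm, ← pow_add]
  push {X Y} j c hc := by
    obtain ⟨h1, Δ, hΔ, hg⟩ := mem_tateSub.1 hc
    refine mem_tateSub.2 ⟨push_gr h1, Δ, hΔ, fun g h => ?_⟩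
    have htr : ∀ (Z : 𝒱.Obj) (g : G) (a : W.H Z),
        W.tr Z (Q.rho Z g a) = (Q.χ g : W.K) ^ Z.dim * W.tr Z a := fun Z g a => hQ.trace Z g a
    refine sub_eq_zero.1 (W.nondeg _ fun b => ?_)
    obtain ⟨b', rfl⟩ := (Q.rho Y g).surjective b
    have e1 : W.tr Y (Q.rho Y g (W.push (snd X Y) c) * Q.rho Y g b') =
        (Q.χ g : W.K) ^ Y.dim * W.tr (X.prod Y) (c * W.map (snd X Y) b') := by
      rw [← map_mul, htr, W.tr_push]
    have e2 : W.tr Y (W.push (snd X Y) c * Q.rho Y g b') =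
        W.tr (X.prod Y) (c * Q.rho (X.prod Y) g (W.map (snd X Y) b')) := by
      have h2 : Q.rho (X.prod Y) g (W.map (snd X Y) b') = W.map (snd X Y) (Q.rho Y g b') :=
        hQ.natural (snd X Y) g b'
      rw [W.tr_push, h2]
    have e3 : (Q.χ g : W.K) ^ (X.dim + j) *
        W.tr (X.prod Y) (c * Q.rho (X.prod Y) g (W.map (snd X Y) b')) =
        (Q.χ g : W.K) ^ (X.dim + Y.dim) * W.tr (X.prod Y) (c * W.map (snd X Y) b') := by
      have h3 := htr (X.prod Y) g (c * W.map (snd X Y) b')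
      rw [map_mul, hg g h, smul_mul_assoc, map_smul, smul_eq_mul] at h3
      exact h3
    have h4 : (Q.χ g : W.K) ≠ 0 := Units.ne_zero _
    rw [sub_mul, map_sub, e1, smul_mul_assoc, map_smul, smul_eq_mul, e2, sub_eq_zero]
    rw [pow_add, pow_add, mul_assoc, mul_assoc] at e3
    exact (mul_left_cancel₀ (pow_ne_zero _ h4) e3).symm

theorem mumfordTate_iff {T : HodgeData W Γ} (hT : IsHodgeTheory T) (Q : GaloisData W G)
    (X : 𝒱.Obj) : MumfordTate T Q X ↔
      TC (spn T.hodge) Q.χ X (Q.act X) ∧ TC (tateSub Q) T.χ X (T.act X) := by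
  constructor
  · intro h
    constructor
    · intro j c hc hg
      have h1 : c ∈ (Submodule.span W.K (T.hodge X j) : Set (W.H X)) := by
        rw [h j]
        exact ⟨hc, hg⟩
      exact h1
    · intro j c hc hg
      have h1 := hT.spans X j c hc hg
      have h2 : c ∈ (Submodule.span W.K (T.hodge X j) : Set (W.H X)) := h1
      rw [h j] at h2
      exact h2
  · rintro ⟨h1, h2⟩ j
    refine Set.Subset.antisymm ?_ ?_
    · refine (Submodule.span_le (p := tateSub Q X j)).2 fun c hc => ?_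
      exact h2 j c (hT.degree X j hc) ⟨⊤, inferInstance, fun g _ => hT.fixes X j c hc g⟩
    · rintro c ⟨hc, hg⟩
      exact h1 j c hc hg

theorem MTProducts.tower {T : HodgeData W Γ} (hT : IsHodgeTheory T) {Q : GaloisData W G}
    (hQ : IsGalois Q) {ι : Type} {V : ι → GRep W.K Γ} {V' : ι → GRep W.K G} {E : Set ι}
    {Z : 𝒱.Obj} {I : Set ι} {Y : 𝒱.Obj} (h : MTProducts T Q V V' E Z I Y) :
    ∃ L : List (ι × 𝒱.Obj), (∀ x ∈ L, x.1 ∈ I ∧ x.1 ∉ E ∧
      IsMTFactor T Q (V x.1) (V' x.1) x.2) ∧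
      S.Tower V (T.var Z) (L.map fun x => (x.1, T.var x.2)) (T.var Y) ∧
      S.Tower V' (Q.var Z) (L.map fun x => (x.1, Q.var x.2)) (Q.var Y) := by
  induction h with
  | base => exact ⟨[], by simp, S.Tower.base, S.Tower.base⟩
  | @step I Y i P hY hi hiE hP ih =>
    obtain ⟨L, hL, h1, h2⟩ := ih
    refine ⟨(i, P) :: L, ?_, ?_, ?_⟩
    · intro x hx
      rcases List.mem_cons.1 hx with rfl | hx
      · exact ⟨Set.mem_insert _ _, hiE, hP⟩
      · exact ⟨Set.mem_insert_of_mem _ (hL x hx).1, (hL x hx).2⟩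
    · refine S.Tower.step (Y := T.var Y) i (T.var P)
        (show Acts (T.var P) (T.var Y) from T.act (P.prod Y)) h1 ?_ hP.hodge
        ⟨hT.natural (fst P Y), hT.natural (snd P Y)⟩
      intro x hx
      obtain ⟨y, hy, rfl⟩ := List.mem_map.1 hx
      exact fun h3 => hi (h3 ▸ (hL y hy).1)
    · refine S.Tower.step (Y := Q.var Y) i (Q.var P)
        (show Acts (Q.var P) (Q.var Y) from Q.act (P.prod Y)) h2 ?_ hP.galois
        ⟨hQ.natural (fst P Y), hQ.natural (snd P Y)⟩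
      intro x hx
      obtain ⟨y, hy, rfl⟩ := List.mem_map.1 hx
      exact fun h3 => hi (h3 ▸ (hL y hy).1)

theorem half_bound {Q : GaloisData W G} (hQ : IsGalois Q) (e : W.K ≃+* ℂ) {ι : Type}
    {V' : ι → GRep W.K G} (hV' : Family V') (Z : 𝒱.Obj) :
    2 * (Exc V' (coh (Q.var Z))).ncard + (semiSpan (coh (Q.var Z))).dim ≤ dim (coh (Q.var Z)) := by
  refine (exceptional e hV' (coh (Q.var Z))).card_form
    ⟨(LinearMap.mul W.K (W.H Z)).compr₂ (W.tr Z), fun x hx => W.nondeg x fun y => hx y,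
      Q.χ ^ Z.dim, fun g (x y : W.H Z) => ?_⟩
  have h1 := hQ.trace Z g (x * y)
  rw [map_mul] at h1
  rw [MonoidHom.pow_apply, Units.val_pow_eq_pow_val]
  exact h1

/-- **The Mumford–Tate conjecture.** -/
theorem final_mt (hK : Nonempty (W.K ≃+* ℂ)) {T : HodgeData W Γ} (hT : IsHodgeTheory T)
    {Q : GaloisData W G} (hQ : IsGalois Q) {ι : Type} {V : ι → GRep W.K Γ} (hV : Family V)
    {V' : ι → GRep W.K G} (hV' : Family V') :
    ∃ E E', MTExceptionalSets T Q V V' E E' := by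
  obtain ⟨e⟩ := hK
  have halg : IsAlgClosed W.K := IsAlgClosed.of_ringEquiv ℂ W.K e.symm
  refine ⟨Exc V, Exc V', ⟨fun U => (exceptional e hV U).finite,
    fun U => (exceptional e hV' U).finite⟩, ?_, ?_, fun m m' U U' Z hZ hZ' I Y hY => ?_⟩
  · intro j
    constructor
    · intro i hi
      by_contra h
      exact hi (hV.pair h)
    · intro i hi
      by_contra h
      exact hi (hV'.pair h)
  · intro Z
    exact ⟨half_bound (Q := ⟨T.act, T.χ⟩) ⟨hT.natural, hT.trace⟩ e hV Z, half_bound hQ e hV' Z⟩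
  · obtain ⟨L, hL, h1, h2⟩ := hY.tower hT hQ
    rw [mumfordTate_iff hT, mumfordTate_iff hT]
    have hpt : ∀ x ∈ L, ∃ a ∈ algClasses W x.2 x.2.dim, W.tr x.2 a ≠ 0 :=
      fun x hx => (hL x hx).2.2.point
    refine and_congr ?_ ?_
    · refine tower_tc (U := U') (E := (⋃ a, Exc V (U a)) ∪ ⋃ a, Exc V' (U' a))
        hT.system.isSys (fun i hi a => ?_)
        (fun i _ j _ hij => hV'.pair hij.symm) hZ' h2 ?_
      · by_contra h
        exact hi (Or.inr (Set.mem_iUnion.2 ⟨a, h⟩))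
      · intro x hx
        obtain ⟨y, hy, rfl⟩ := List.mem_map.1 hx
        obtain ⟨a, ha, ha0⟩ := hpt y hy
        exact ⟨(hL y hy).2.1, (hL y hy).2.2.twisted', ((mumfordTate_iff hT Q _).1
          (hL y hy).2.2.mt).1, a, Submodule.subset_span (hT.system.alg _ _ a ha), ha0⟩
    · refine tower_tc (U := U) (E := (⋃ a, Exc V (U a)) ∪ ⋃ a, Exc V' (U' a))
        (tate_isSys hQ) (fun i hi a => ?_)
        (fun i _ j _ hij => hV.pair hij.symm) hZ h1 ?_
      · by_contra h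
        exact hi (Or.inl (Set.mem_iUnion.2 ⟨a, h⟩))
      · intro x hx
        obtain ⟨y, hy, rfl⟩ := List.mem_map.1 hx
        obtain ⟨a, ha, ha0⟩ := hpt y hy
        have h5 := (mumfordTate_iff hT Q _).1 (hL y hy).2.2.mt
        refine ⟨(hL y hy).2.1, (hL y hy).2.2.twisted, h5.2, a, ?_, ha0⟩
        have h6 := hT.system.alg _ _ a ha
        exact h5.2 y.2.dim a (hT.degree _ _ h6) ⟨⊤, inferInstance, fun g _ =>
          hT.fixes _ _ a h6 g⟩

end Pool.Agent.N179.PC
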